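import Pool.Agent.H7.RHX.KA

/-!
# MP_def5ca_co: K3, the check of the links is sound
-/

set_option autoImplicit false

namespace Pool.Agent.H7.RHX

open Pool.Agent.H54.RH Relation

variable {n : ℕ}

/-- `v` is the vertex of `h` at which the place `z` is 0 and the place `y` is 2 -/
def Pv (h v : W n) (z y : Fin n) : Prop :=
  h z = 1 ∧ h y = 1 ∧ z ≠ y ∧ v = Function.update (Function.update h z 0) y 2

theorem Pv.isVx {h v : W n} {z y : Fin n} (p : Pv h v z y) : IsVx h v := ⟨z, y, p⟩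

theorem Pv.vz {h v : W n} {z y : Fin n} (p : Pv h v z y) : v z = 0 := by
  obtain ⟨_, _, hn, rfl⟩ := p
  rw [Function.update_of_ne hn, Function.update_self]

theorem Pv.vy {h v : W n} {z y : Fin n} (p : Pv h v z y) : v y = 2 := by
  obtain ⟨_, _, hn, rfl⟩ := p
  rw [Function.update_self]

theorem Pv.vo {h v : W n} {z y : Fin n} (p : Pv h v z y) {t : Fin n} (h1 : t ≠ z) (h2 : t ≠ y) :
    v t = h t := by
  obtain ⟨_, _, hn, rfl⟩ := p
  rw [Function.update_of_ne h2, Function.update_of_ne h1]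

/-- a step across the edge opposite to the place `y` -/
theorem Pv.stepY {h v : W n} {z y l : Fin n} (p : Pv h v z y) (hl : h l = 2) :
    Pv (sw h y l) v z l := by
  have hzl : z ≠ l := by
    rintro rfl
    rw [p.1] at hl
    exact absurd hl (by decide)
  have hyl : y ≠ l := by
    rintro rfl
    rw [p.2.1] at hl
    exact absurd hl (by decide)
  refine ⟨?_, ?_, hzl, ?_⟩
  · unfold sw
    rw [if_neg p.2.2.1, if_neg hzl]
    exact p.1
  · unfold sw
    rw [if_neg hyl.symm, if_pos rfl]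
    exact p.2.1
  · funext t
    by_cases h1 : t = l
    · subst h1
      rw [Function.update_self, p.vo hzl.symm hyl.symm, hl]
    · rw [Function.update_of_ne h1]
      by_cases h2 : t = z
      · subst h2
        rw [Function.update_self, p.vz]
      · rw [Function.update_of_ne h2]
        unfold sw
        by_cases h3 : t = y
        · subst h3
          rw [if_pos rfl, hl, p.vy]
        · rw [if_neg h3, if_neg h1, p.vo h2 h3]

/-- a step across the edge opposite to the place `z` -/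
theorem Pv.stepZ {h v : W n} {z y l : Fin n} (p : Pv h v z y) (hl : h l = 0) :
    Pv (sw h z l) v l y := by
  have hzl : z ≠ l := by
    rintro rfl
    rw [p.1] at hl
    exact absurd hl (by decide)
  have hyl : y ≠ l := by
    rintro rfl
    rw [p.2.1] at hl
    exact absurd hl (by decide)
  refine ⟨?_, ?_, hyl.symm, ?_⟩
  · unfold sw
    rw [if_neg hzl.symm, if_pos rfl]
    exact p.1
  · unfold sw
    rw [if_neg p.2.2.1.symm, if_neg hyl]
    exact p.2.1
  · funext t
    by_cases h1 : t = y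
    · subst h1
      rw [Function.update_self, p.vy]
    · rw [Function.update_of_ne h1]
      by_cases h2 : t = l
      · subst h2
        rw [Function.update_self, p.vo hzl.symm h1, hl]
      · rw [Function.update_of_ne h2]
        unfold sw
        by_cases h3 : t = z
        · subst h3
          rw [if_pos rfl, hl, p.vz]
        · rw [if_neg h3, if_neg h2, p.vo h3 h1]

/-- the code `c` is the code of a hexagon which can be reached from `h` -/
def Rc (m : ℕ) (v h : W n) (c z y : ℕ) : Prop := ∃ (h1 : W n) (z1 y1 : Fin n), z1.val = z ∧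
  y1.val = y ∧ cd h1 = c ∧ Pv h1 v z1 y1 ∧ h1 ∈ MS n m ∧ ReflTransGen (nbv (MS n m) v) h h1

theorem nxt_cases (m c k e : ℕ) :
    (nxt n m c k e = (k, c)) ∨ ∃ l, l < n ∧ dg c l = e ∧ m.testBit (csw c k l) = true ∧
      nxt n m c k e = (l, csw c k l) := by
  unfold nxt
  cases hf : (List.range n).find? (fun l => dg c l == e && m.testBit (csw c k l)) with
  | none => exact Or.inl rfl
  | some l =>
    refine Or.inr ⟨l, ?_⟩
    have h1 := List.find?_some hf
    have h2 := List.mem_of_find?_eq_some hf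
    rw [List.mem_range] at h2
    rw [Bool.and_eq_true, beq_iff_eq] at h1
    exact ⟨h2, h1.1, h1.2, rfl⟩

theorem Rc.stepY (h0 : T_K0) {m : ℕ} {v h : W n} {c z y : ℕ} (r : Rc m v h c z y) :
    Rc m v h (nxt n m c y 2).2 z (nxt n m c y 2).1 := by
  rcases nxt_cases (n := n) m c y 2 with e | ⟨l, hl, hd, hb, e⟩
  · rw [e]
    exact r
  · rw [e]
    obtain ⟨h1, z1, y1, rfl, rfl, rfl, p, hm, ht⟩ := r
    have hd2 : h1 ⟨l, hl⟩ = 2 := by
      apply val_eq
      rw [← (h0 n h1).2.1 ⟨l, hl⟩]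
      exact hd
    have hc : csw (cd h1) y1.val l = cd (sw h1 y1 ⟨l, hl⟩) := ((h0 n h1).2.2.2.2 y1 ⟨l, hl⟩).symm
    rw [hc] at hb ⊢
    have hm' : sw h1 y1 ⟨l, hl⟩ ∈ MS n m := mem_MS.2 hb
    have p' := p.stepY hd2
    refine ⟨sw h1 y1 ⟨l, hl⟩, z1, ⟨l, hl⟩, rfl, rfl, rfl, p', hm', ht.tail ?_⟩
    refine ⟨⟨hm', y1, ⟨l, hl⟩, p.2.1, ?_, rfl⟩, p.isVx, p'.isVx⟩
    rw [hd2]
    decide

theorem Rc.stepZ (h0 : T_K0) {m : ℕ} {v h : W n} {c z y : ℕ} (r : Rc m v h c z y) :
    Rc m v h (nxt n m c z 0).2 (nxt n m c z 0).1 y := by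
  rcases nxt_cases (n := n) m c z 0 with e | ⟨l, hl, hd, hb, e⟩
  · rw [e]
    exact r
  · rw [e]
    obtain ⟨h1, z1, y1, rfl, rfl, rfl, p, hm, ht⟩ := r
    have hd2 : h1 ⟨l, hl⟩ = 0 := by
      apply val_eq
      rw [← (h0 n h1).2.1 ⟨l, hl⟩]
      exact hd
    have hc : csw (cd h1) z1.val l = cd (sw h1 z1 ⟨l, hl⟩) := ((h0 n h1).2.2.2.2 z1 ⟨l, hl⟩).symm
    rw [hc] at hb ⊢
    have hm' : sw h1 z1 ⟨l, hl⟩ ∈ MS n m := mem_MS.2 hb
    have p' := p.stepZ hd2
    refine ⟨sw h1 z1 ⟨l, hl⟩, ⟨l, hl⟩, y1, rfl, rfl, rfl, p', hm', ht.tail ?_⟩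
    refine ⟨⟨hm', z1, ⟨l, hl⟩, p.1, ?_, rfl⟩, p.isVx, p'.isVx⟩
    rw [hd2]
    decide

theorem around_mem (h0 : T_K0) {m : ℕ} {v h : W n} {z y : Fin n} (p : Pv h v z y)
    (hm : h ∈ MS n m) (c : ℕ) (hc : c ∈ around n m (cd h) z.val y.val) :
    ∃ z1 y1, Rc m v h c z1 y1 := by
  have r0 : Rc m v h (cd h) z.val y.val := ⟨h, z, y, rfl, rfl, rfl, p, hm, ReflTransGen.refl⟩
  have r1 := r0.stepY h0
  have r2 := r1.stepZ h0
  have r3 := r2.stepY h0
  have r4 := r3.stepZ h0
  have r5 := r4.stepY h0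
  unfold around at hc
  simp only [List.mem_cons, List.not_mem_nil, or_false] at hc
  rcases hc with rfl | rfl | rfl | rfl | rfl | rfl
  · exact ⟨_, _, r0⟩
  · exact ⟨_, _, r1⟩
  · exact ⟨_, _, r2⟩
  · exact ⟨_, _, r3⟩
  · exact ⟨_, _, r4⟩
  · exact ⟨_, _, r5⟩

theorem pf_K3 (h0 : T_K0) : T_K3 := by
  intro n m hck v h hh g hg hv gv
  obtain ⟨z, y, p⟩ := hv
  obtain ⟨z', y', p'⟩ := gv
  change Pv h v z y at p
  change Pv g v z' y' at p'
  have e1 : cd v + 3 ^ z.val = cd h + 3 ^ y.val := by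
    have := cd_vx h z y p.1 p.2.1 p.2.2.1
    rw [← p.2.2.2] at this
    exact this
  have e2 : cd v + 3 ^ z'.val = cd g + 3 ^ y'.val := by
    have := cd_vx g z' y' p'.1 p'.2.1 p'.2.2.1
    rw [← p'.2.2.2] at this
    exact this
  have e3 : cd h + 3 ^ y.val - 3 ^ z.val = cd v := by omega
  have e4 : cd v + 3 ^ z'.val - 3 ^ y'.val = cd g := by omega
  unfold ck3 at hck
  rw [List.all_eq_true] at hck
  have h1 := hck (cd h) (mem_codes.2 ⟨(h0 n h).1, mem_MS.1 hh⟩)
  rw [List.all_eq_true] at h1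
  have h2 := h1 z.val (List.mem_range.2 z.isLt)
  rw [List.all_eq_true] at h2
  have h3 := h2 y.val (List.mem_range.2 y.isLt)
  have d1 : dg (cd h) z.val = 1 := by
    rw [(h0 n h).2.1 z, p.1]
    rfl
  have d2 : dg (cd h) y.val = 1 := by
    rw [(h0 n h).2.1 y, p.2.1]
    rfl
  have d3 : (z.val == y.val) = false := by
    rw [beq_eq_false_iff_ne]
    intro e
    exact p.2.2.1 (Fin.ext e)
  rw [d1, d2, d3, e3] at h3
  simp only [bne_self_eq_false, Bool.or_false, Bool.false_or] at h3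
  rw [List.all_eq_true] at h3
  have h4 := h3 z'.val (List.mem_range.2 z'.isLt)
  rw [List.all_eq_true] at h4
  have h5 := h4 y'.val (List.mem_range.2 y'.isLt)
  have d4 : dg (cd v) z'.val = 0 := by
    rw [(h0 n v).2.1 z', p'.vz]
    rfl
  have d5 : dg (cd v) y'.val = 2 := by
    rw [(h0 n v).2.1 y', p'.vy]
    rfl
  rw [e4, d4, d5, mem_MS.1 hg] at h5
  simp only [bne_self_eq_false, Bool.or_false, Bool.false_or, Bool.not_true] at h5
  rw [List.contains_iff_mem] at h5
  obtain ⟨z1, y1, g', _, _, _, _, ec, _, _, ht⟩ := around_mem h0 p hh (cd g) h5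
  have : g' = g := (h0 n g).2.2.2.1 ec
  rw [← this]
  exact ht

end Pool.Agent.H7.RHX
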