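import Pool.Agent.H7.RHX.KA

/-!
# MP_def5ca_co: K5, the numbers of the vertices and of the hexagons
-/

set_option autoImplicit false

namespace Pool.Agent.H7.RHX

open Pool.Agent.H54.RH

variable {n : ℕ}

theorem card_of_codes (h0 : T_K0) (S : Finset (W n)) (p : ℕ → Bool)
    (hp : ∀ v, v ∈ S ↔ p (cd v) = true) :
    S.card = ((List.range (3 ^ n)).filter p).length := by
  have hinj : Function.Injective (cd (n := n)) := (h0 n (fun _ => 0)).2.2.2.1
  have hnd : ((List.range (3 ^ n)).filter p).Nodup := List.Nodup.filter _ List.nodup_range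
  rw [← List.toFinset_card_of_nodup hnd, ← Finset.card_image_of_injective S hinj]
  congr 1
  ext c
  rw [Finset.mem_image, List.mem_toFinset, List.mem_filter, List.mem_range]
  constructor
  · rintro ⟨v, hv, rfl⟩
    exact ⟨(h0 n v).1, (hp v).1 hv⟩
  · rintro ⟨h1, h2⟩
    obtain ⟨g, rfl⟩ := (h0 n (fun _ => 0)).2.2.1 c h1
    exact ⟨g, (hp g).2 h2, rfl⟩

theorem cnt_cd (h0 : T_K0) (h : W n) (e : Fin 3) :
    cnt n (cd h) e.val = (Finset.univ.filter fun t => h t = e).card := by
  have hnd : ((List.range n).filter fun t => dg (cd h) t == e.val).Nodup :=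
    List.Nodup.filter _ List.nodup_range
  unfold cnt
  rw [← List.toFinset_card_of_nodup hnd,
    ← Finset.card_image_of_injective (Finset.univ.filter fun t => h t = e) Fin.val_injective]
  congr 1
  ext t
  rw [Finset.mem_image, List.mem_toFinset, List.mem_filter, List.mem_range, beq_iff_eq]
  constructor
  · rintro ⟨h1, h2⟩
    refine ⟨⟨t, h1⟩, ?_, rfl⟩
    rw [Finset.mem_filter]
    refine ⟨Finset.mem_univ _, val_eq ?_⟩
    rw [← (h0 n h).2.1 ⟨t, h1⟩]
    exact h2
  · rintro ⟨t', h1, rfl⟩
    rw [Finset.mem_filter] at h1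
    refine ⟨t'.isLt, ?_⟩
    rw [(h0 n h).2.1 t', h1.2]

theorem act_vx {h v : W n} {z y : Fin n} (hz : h z = 1) (hy : h y = 1) (hn : z ≠ y)
    (hv : v = Function.update (Function.update h z 0) y 2) (h3 : (act h).card = 3) :
    (act v).card = 1 := by
  have e : act v = ((act h).erase z).erase y := by
    ext t
    unfold act
    rw [Finset.mem_filter, Finset.mem_erase, Finset.mem_erase, Finset.mem_filter, hv]
    by_cases h1 : t = y
    · subst h1
      rw [Function.update_self]
      constructor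
      · rintro ⟨_, h2⟩
        exact absurd h2 (by decide)
      · rintro ⟨h2, _⟩
        exact absurd rfl h2
    · rw [Function.update_of_ne h1]
      by_cases h2 : t = z
      · subst h2
        rw [Function.update_self]
        constructor
        · rintro ⟨_, h2⟩
          exact absurd h2 (by decide)
        · rintro ⟨_, h2, _⟩
          exact absurd rfl h2
      · rw [Function.update_of_ne h2]
        exact ⟨fun h => ⟨h1, h2, h⟩, fun h => h.2.2⟩
  have hz' : z ∈ act h := by
    unfold act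
    rw [Finset.mem_filter]
    exact ⟨Finset.mem_univ _, hz⟩
  have hy' : y ∈ (act h).erase z := by
    unfold act
    rw [Finset.mem_erase, Finset.mem_filter]
    exact ⟨hn.symm, Finset.mem_univ _, hy⟩
  rw [e, Finset.card_erase_of_mem hy', Finset.card_erase_of_mem hz', h3]

theorem mem_vx_iff (h0 : T_K0) (h1 : T_K1) {b m : ℕ} (hck : ck1 n b m = true) (v : W n) :
    v ∈ vx (MS n m) ↔ (cnt n (cd v) 1 == 1 &&
      (List.range n).any fun z => dg (cd v) z == 0 && (List.range n).any fun y =>
        dg (cd v) y == 2 && m.testBit (cd v + 3 ^ z - 3 ^ y)) = true := by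
  unfold vx
  rw [Finset.mem_filter, Bool.and_eq_true, beq_iff_eq, List.any_eq_true]
  have hcnt : cnt n (cd v) 1 = (act v).card := cnt_cd h0 v 1
  rw [hcnt]
  constructor
  · rintro ⟨_, h, hh, z, y, hz, hy, hn, hv⟩
    refine ⟨act_vx hz hy hn hv (h1 n b m hck h hh).1, z.val, List.mem_range.2 z.isLt, ?_⟩
    rw [Bool.and_eq_true, beq_iff_eq, List.any_eq_true]
    refine ⟨?_, y.val, List.mem_range.2 y.isLt, ?_⟩
    · rw [(h0 n v).2.1 z, hv, Function.update_of_ne hn, Function.update_self]
      rfl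
    · rw [Bool.and_eq_true, beq_iff_eq]
      refine ⟨?_, ?_⟩
      · rw [(h0 n v).2.1 y, hv, Function.update_self]
        rfl
      · have e1 := cd_vx h z y hz hy hn
        rw [← hv] at e1
        have e2 : cd v + 3 ^ z.val - 3 ^ y.val = cd h := by omega
        rw [e2]
        exact mem_MS.1 hh
  · rintro ⟨_, z, hz, h2⟩
    rw [Bool.and_eq_true, beq_iff_eq, List.any_eq_true] at h2
    obtain ⟨hz0, y, hy, h3⟩ := h2
    rw [Bool.and_eq_true, beq_iff_eq] at h3
    obtain ⟨hy2, hb⟩ := h3
    rw [List.mem_range] at hz hy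
    have vz : v ⟨z, hz⟩ = 0 := by
      apply val_eq
      rw [← (h0 n v).2.1 ⟨z, hz⟩]
      exact hz0
    have vy : v ⟨y, hy⟩ = 2 := by
      apply val_eq
      rw [← (h0 n v).2.1 ⟨y, hy⟩]
      exact hy2
    have hn : (⟨z, hz⟩ : Fin n) ≠ ⟨y, hy⟩ := by
      intro e
      rw [e, vy] at vz
      exact absurd vz (by decide)
    have hh : v = Function.update (Function.update
        (Function.update (Function.update v ⟨z, hz⟩ 1) ⟨y, hy⟩ 1) ⟨z, hz⟩ 0) ⟨y, hy⟩ 2 := by
      funext t
      by_cases h1 : t = ⟨y, hy⟩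
      · rw [h1, Function.update_self, vy]
      · rw [Function.update_of_ne h1]
        by_cases h2 : t = ⟨z, hz⟩
        · rw [h2, Function.update_self, vz]
        · rw [Function.update_of_ne h2, Function.update_of_ne h1, Function.update_of_ne h2]
    have hz1 : (Function.update (Function.update v ⟨z, hz⟩ 1) ⟨y, hy⟩ 1 : W n) ⟨z, hz⟩ = 1 := by
      rw [Function.update_of_ne hn, Function.update_self]
    have hy1 : (Function.update (Function.update v ⟨z, hz⟩ 1) ⟨y, hy⟩ 1 : W n) ⟨y, hy⟩ = 1 := by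
      rw [Function.update_self]
    refine ⟨Finset.mem_univ _, Function.update (Function.update v ⟨z, hz⟩ 1) ⟨y, hy⟩ 1, ?_,
      ⟨z, hz⟩, ⟨y, hy⟩, hz1, hy1, hn, hh⟩
    rw [mem_MS]
    have e1 := cd_vx _ ⟨z, hz⟩ ⟨y, hy⟩ hz1 hy1 hn
    rw [← hh] at e1
    simp only at e1
    have e2 : cd v + 3 ^ z - 3 ^ y
        = cd (Function.update (Function.update v ⟨z, hz⟩ 1) ⟨y, hy⟩ 1) := by omega
    rw [← e2]
    exact hb

theorem pf_K5 (h0 : T_K0) (h1 : T_K1) : T_K5 := by
  intro n b m hck
  refine ⟨?_, ?_⟩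
  · unfold nv
    exact card_of_codes h0 _ _ (fun v => mem_vx_iff h0 h1 hck v)
  · unfold codes
    exact card_of_codes h0 _ _ (fun v => mem_MS)

end Pool.Agent.H7.RHX
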