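import Pool.Agent.H61.PMF.CYC
import Pool.Agent.H7.RHX.K3

/-!
# MP_def5ca_co: LK, the places at a vertex in cyclic order
-/

set_option autoImplicit false

namespace Pool.Agent.H7.RHX

open Pool.Agent.H54.RH Relation
open Pool.Agent.H61.PMF (walk walk_even walk_odd walk_per walk_opp exists_walk)

variable {n : ℕ}

/-- the hexagon with the vertex `v` and the places `z` and `y` -/
def hx (v : W n) (z y : Fin n) : W n := Function.update (Function.update v z 1) y 1

theorem pv_iff {h v : W n} {z y : Fin n} :
    Pv h v z y ↔ v z = 0 ∧ v y = 2 ∧ h = hx v z y := by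
  constructor
  · intro p
    refine ⟨p.vz, p.vy, ?_⟩
    funext t
    unfold hx
    by_cases h1 : t = y
    · rw [h1, Function.update_self, p.2.1]
    · rw [Function.update_of_ne h1]
      by_cases h2 : t = z
      · rw [h2, Function.update_self, p.1]
      · rw [Function.update_of_ne h2, p.vo h2 h1]
  · rintro ⟨hz, hy, rfl⟩
    have hn : z ≠ y := by
      rintro rfl
      rw [hz] at hy
      exact absurd hy (by decide)
    refine ⟨?_, ?_, hn, ?_⟩
    · unfold hx
      rw [Function.update_of_ne hn, Function.update_self]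
    · unfold hx
      rw [Function.update_self]
    · funext t
      unfold hx
      by_cases h1 : t = y
      · rw [h1, Function.update_self, hy]
      · rw [Function.update_of_ne h1]
        by_cases h2 : t = z
        · rw [h2, Function.update_self, hz]
        · rw [Function.update_of_ne h2, Function.update_of_ne h1, Function.update_of_ne h2]

/-- the pairs of places of the hexagons of `M` at `v` -/
abbrev ZP (M : Finset (W n)) (v : W n) : Type :=
  {p : Fin n × Fin n // v p.1 = 0 ∧ v p.2 = 2 ∧ hx v p.1 p.2 ∈ M}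

theorem ZP.pv {M : Finset (W n)} {v : W n} (x : ZP M v) : Pv (hx v x.1.1 x.1.2) v x.1.1 x.1.2 :=
  pv_iff.2 ⟨x.2.1, x.2.2.1, rfl⟩

/-- partners: another place which is 0 -/
theorem partS {M : Finset (W n)} {b : ℕ} (G : Good M b) (v : W n) :
    ∃ s : ZP M v → ZP M v, (∀ x, (s x).1.2 = x.1.2) ∧ (∀ x, s x ≠ x) ∧ (∀ x, s (s x) = x) ∧
      ∀ x w : ZP M v, w.1.2 = x.1.2 → w = x ∨ w = s x := by
  have key : ∀ x : ZP M v, ∃ x' : ZP M v, x'.1.2 = x.1.2 ∧ x' ≠ x ∧
      ∀ w : ZP M v, w.1.2 = x.1.2 → w = x ∨ w = x' := by
    intro x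
    have p := x.pv
    obtain ⟨l, ⟨hl, hm⟩, hu⟩ := G.edge _ x.2.2.2 x.1.1 p.1 0 (by decide)
    have q := pv_iff.1 (p.stepZ hl)
    refine ⟨⟨(l, x.1.2), q.1, q.2.1, ?_⟩, rfl, ?_, ?_⟩
    · show hx v l x.1.2 ∈ M
      rw [← q.2.2]
      exact hm
    · intro e
      have e1 : l = x.1.1 := congrArg (fun w : ZP M v => w.1.1) e
      rw [e1, p.1] at hl
      exact absurd hl (by decide)
    · intro w hw
      by_cases h1 : w.1.1 = x.1.1
      · exact Or.inl (Subtype.ext (Prod.ext h1 hw))
      · right
        have h2 : w.1.1 ≠ x.1.2 := by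
          intro e
          have := w.2.1
          rw [e, x.2.2.1] at this
          exact absurd this (by decide)
        have h3 : hx v x.1.1 x.1.2 w.1.1 = 0 := by
          rw [← p.vo h1 h2]
          exact w.2.1
        have q' := pv_iff.1 (p.stepZ h3)
        have h4 : w.1.1 = l := by
          apply hu
          refine ⟨h3, ?_⟩
          rw [q'.2.2, ← hw]
          exact w.2.2.2
        exact Subtype.ext (Prod.ext h4 hw)
  choose s h1 h2 h3 using key
  refine ⟨s, h1, h2, ?_, h3⟩
  intro x
  rcases h3 (s x) x (h1 x).symm with e | e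
  · exact absurd e.symm (h2 x)
  · exact e.symm

/-- partners: another place which is 2 -/
theorem partT {M : Finset (W n)} {b : ℕ} (G : Good M b) (v : W n) :
    ∃ s : ZP M v → ZP M v, (∀ x, (s x).1.1 = x.1.1) ∧ (∀ x, s x ≠ x) ∧ (∀ x, s (s x) = x) ∧
      ∀ x w : ZP M v, w.1.1 = x.1.1 → w = x ∨ w = s x := by
  have key : ∀ x : ZP M v, ∃ x' : ZP M v, x'.1.1 = x.1.1 ∧ x' ≠ x ∧
      ∀ w : ZP M v, w.1.1 = x.1.1 → w = x ∨ w = x' := by
    intro x
    have p := x.pv
    obtain ⟨l, ⟨hl, hm⟩, hu⟩ := G.edge _ x.2.2.2 x.1.2 p.2.1 2 (by decide)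
    have q := pv_iff.1 (p.stepY hl)
    refine ⟨⟨(x.1.1, l), q.1, q.2.1, ?_⟩, rfl, ?_, ?_⟩
    · show hx v x.1.1 l ∈ M
      rw [← q.2.2]
      exact hm
    · intro e
      have e1 : l = x.1.2 := congrArg (fun w : ZP M v => w.1.2) e
      rw [e1, p.2.1] at hl
      exact absurd hl (by decide)
    · intro w hw
      by_cases h1 : w.1.2 = x.1.2
      · exact Or.inl (Subtype.ext (Prod.ext hw h1))
      · right
        have h2 : w.1.2 ≠ x.1.1 := by
          intro e
          have := w.2.2.1
          rw [e, x.2.1] at this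
          exact absurd this (by decide)
        have h3 : hx v x.1.1 x.1.2 w.1.2 = 2 := by
          rw [← p.vo h2 h1]
          exact w.2.2.1
        have q' := pv_iff.1 (p.stepY h3)
        have h4 : w.1.2 = l := by
          apply hu
          refine ⟨h3, ?_⟩
          rw [q'.2.2, ← hw]
          exact w.2.2.2
        exact Subtype.ext (Prod.ext hw h4)
  choose s h1 h2 h3 using key
  refine ⟨s, h1, h2, ?_, h3⟩
  intro x
  rcases h3 (s x) x (h1 x).symm with e | e
  · exact absurd e.symm (h2 x)
  · exact e.symm

theorem common_place {v h g : W n} {z y z' y' k l : Fin n} (p : Pv h v z y) (q : Pv g v z' y')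
    (hl : h l ≠ 1) (e : g = sw h k l) : z' = z ∨ y' = y := by
  by_contra hc
  rw [not_or] at hc
  obtain ⟨h1, h2⟩ := hc
  have hzk : z = k := by
    by_contra hne
    have h3 : z ≠ l := by
      rintro rfl
      exact hl p.1
    have h4 : g z = 1 := by
      rw [e]
      unfold sw
      rw [if_neg hne, if_neg h3]
      exact p.1
    have h5 : z ≠ y' := by
      rintro rfl
      have := q.vy
      rw [p.vz] at this
      exact absurd this (by decide)
    have h6 := q.vo (Ne.symm h1) h5
    rw [p.vz, h4] at h6
    exact absurd h6 (by decide)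
  have hyk : y = k := by
    by_contra hne
    have h3 : y ≠ l := by
      rintro rfl
      exact hl p.2.1
    have h4 : g y = 1 := by
      rw [e]
      unfold sw
      rw [if_neg hne, if_neg h3]
      exact p.2.1
    have h5 : y ≠ z' := by
      rintro rfl
      have := q.vz
      rw [p.vy] at this
      exact absurd this (by decide)
    have h6 := q.vo h5 (Ne.symm h2)
    rw [p.vy, h4] at h6
    exact absurd h6 (by decide)
  exact p.2.2.1 (hzk.trans hyk.symm)

theorem pf_LK : T_LK := by
  intro n b M G v hv
  obtain ⟨h00, h0M, z0, y0, p0⟩ := hv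
  change Pv h00 v z0 y0 at p0
  obtain ⟨s, s1, s2, s3, s4⟩ := partS G v
  obtain ⟨t, t1, t2, t3, t4⟩ := partT G v
  have q0 := pv_iff.1 p0
  let g0 : ZP M v := ⟨(z0, y0), q0.1, q0.2.1, by
    show hx v z0 y0 ∈ M
    rw [← q0.2.2]
    exact h0M⟩
  have hst : ∀ x, s x ≠ t x := by
    intro x e
    have h1 := t1 x
    rw [← e] at h1
    exact s2 x (Subtype.ext (Prod.ext h1 (s1 x)))
  obtain ⟨d, hd4, hdE, hdg, hinj⟩ := exists_walk (g := g0) s3 t3 s2 t2 hst
  have hd0 : NeZero d := ⟨by omega⟩
  have hper := walk_per (s := s) (t := t) (g := g0) d hdE hdg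
  have hmod : ∀ n, walk s t g0 (n % d) = walk s t g0 n := fun n => hper.map_mod_nat n
  have hsucc : ∀ k : Fin d, walk s t g0 (k + 1 : Fin d).val = walk s t g0 (k.val + 1) := by
    intro k
    rw [Fin.val_add, Fin.val_one', Nat.add_mod_mod, hmod]
  have hparS : ∀ k : Fin d, Even (k + 1 : Fin d).val ↔ ¬ Even k.val := by
    intro k
    rw [Fin.val_add, Fin.val_one', Nat.add_mod_mod]
    obtain ⟨e, he⟩ := hdE
    rcases Nat.lt_or_ge (k.val + 1) d with h1 | h1
    · rw [Nat.mod_eq_of_lt h1, Nat.even_add_one]
    · have h2 : k.val + 1 = d := by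
        have := k.isLt
        omega
      rw [h2, Nat.mod_self]
      have h3 : ¬ Even k.val := by
        intro h4
        have : Even d := ⟨e, he⟩
        rw [← h2, Nat.even_add_one] at this
        exact this h4
      simp [h3]
  -- the range is closed
  have hcs : ∀ n, ∃ m, walk s t g0 m = s (walk s t g0 n) ∧ (Even m ↔ ¬ Even n) := by
    intro n
    by_cases hE : Even n
    · exact ⟨n + 1, walk_even s t g0 hE, Nat.even_add_one⟩
    · obtain ⟨m, rfl⟩ : ∃ m, n = m + 1 := ⟨n - 1, by
        have : n ≠ 0 := by rintro rfl; exact hE (by simp)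
        omega⟩
      have hm : Even m := by
        rw [Nat.even_add_one] at hE
        simpa using hE
      refine ⟨m, ?_, ?_⟩
      · rw [walk_even s t g0 hm, s3]
      · simp [hm, hE]
  have hct : ∀ n, ∃ m, walk s t g0 m = t (walk s t g0 n) ∧ (Even m ↔ ¬ Even n) := by
    intro n
    by_cases hE : Even n
    · have h1 : walk s t g0 (n + d) = walk s t g0 n := hper n
      obtain ⟨m, hm⟩ : ∃ m, n + d = m + 1 := ⟨n + d - 1, by omega⟩
      have hmE : ¬ Even m := by
        intro h
        have : Even (m + 1) := hm ▸ hE.add hdE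
        rw [Nat.even_add_one] at this
        exact this h
      refine ⟨m, ?_, ?_⟩
      · rw [← h1, hm, walk_odd s t g0 hmE, t3]
      · simp [hmE, hE]
    · exact ⟨n + 1, walk_odd s t g0 hE, Nat.even_add_one⟩
  have hparity : ∀ a b, walk s t g0 a = walk s t g0 b → (Even a ↔ Even b) := by
    have aux : ∀ a b, a < b → walk s t g0 a = walk s t g0 b → (Even a ↔ Even b) := by
      intro a b hab e
      rcases Nat.even_or_odd' (b - a) with ⟨k, hk | hk⟩
      · have : b = a + 2 * k := by omega
        rw [this, Nat.even_add]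
        simp
      · have : b = a + (2 * k + 1) := by omega
        rw [this] at e
        exact absurd e (walk_opp s3 t3 s2 t2 k a)
    intro a b e
    rcases lt_trichotomy a b with h | h | h
    · exact aux a b h e
    · rw [h]
    · exact (aux b a h e.symm).symm
  have hrange : ∀ x : ZP M v, ∃ k, walk s t g0 k = x := by
    intro x
    have hc := G.link v _ g0.2.2.2 _ x.2.2.2 g0.pv.isVx x.pv.isVx
    have : ∀ h : W n, ReflTransGen (nbv M v) (hx v g0.1.1 g0.1.2) h →
        ∃ k, hx v (walk s t g0 k).1.1 (walk s t g0 k).1.2 = h := by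
      intro h hz
      induction hz with
      | refl => exact ⟨0, rfl⟩
      | tail _ hst' ih =>
        obtain ⟨k, hk⟩ := ih
        obtain ⟨⟨hm, k', l', _, hl', e⟩, _, z', y', p'⟩ := hst'
        change Pv _ v z' y' at p'
        have q' := pv_iff.1 p'
        rw [← hk] at hl' e
        have hcp := common_place (walk s t g0 k).pv p' hl' e
        have hw : hx v z' y' ∈ M := by
          rw [← q'.2.2]
          exact hm
        have hw2 : ∃ w : ZP M v, w.1 = (z', y') := ⟨⟨(z', y'), q'.1, q'.2.1, hw⟩, rfl⟩
        obtain ⟨w, hw2⟩ := hw2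
        have hfin : ∃ k2, walk s t g0 k2 = w := by
          rcases hcp with e1 | e1
          · rcases t4 (walk s t g0 k) w (by rw [hw2]; exact e1) with e2 | e2
            · exact ⟨k, e2.symm⟩
            · obtain ⟨m, hm, _⟩ := hct k
              exact ⟨m, by rw [hm, e2]⟩
          · rcases s4 (walk s t g0 k) w (by rw [hw2]; exact e1) with e2 | e2
            · exact ⟨k, e2.symm⟩
            · obtain ⟨m, hm, _⟩ := hcs k
              exact ⟨m, by rw [hm, e2]⟩
        obtain ⟨k2, hk2⟩ := hfin
        exact ⟨k2, by rw [hk2, hw2]; exact q'.2.2.symm⟩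
    obtain ⟨k, hk⟩ := this _ hc
    refine ⟨k, ?_⟩
    -- the pair of places is determined by the hexagon
    have p1 := (walk s t g0 k).pv
    have p2 := x.pv
    rw [hk] at p1
    have e1 : (walk s t g0 k).1.1 = x.1.1 := by
      by_contra hne
      have h2 : (walk s t g0 k).1.1 ≠ x.1.2 := by
        intro e
        have := p2.vy
        rw [← e, p1.vz] at this
        exact absurd this (by decide)
      have h3 := p2.vo hne h2
      rw [p1.vz, p1.1] at h3
      exact absurd h3 (by decide)
    have e2 : (walk s t g0 k).1.2 = x.1.2 := by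
      by_contra hne
      have h2 : (walk s t g0 k).1.2 ≠ x.1.1 := by
        intro e
        have := p2.vz
        rw [← e, p1.vy] at this
        exact absurd this (by decide)
      have h3 := p2.vo h2 hne
      rw [p1.vy, p1.2.1] at h3
      exact absurd h3 (by decide)
    exact Subtype.ext (Prod.ext e1 e2)
  refine ⟨d, hd0, fun k => if Even k.val then (walk s t g0 k.val).1.1
    else (walk s t g0 k.val).1.2, hd4, ?_⟩
  have hpair : ∀ k : Fin d, Function.update (Function.update v
      (if Even k.val then (walk s t g0 k.val).1.1 else (walk s t g0 k.val).1.2) 1)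
      (if Even (k + 1 : Fin d).val then (walk s t g0 (k + 1 : Fin d).val).1.1
        else (walk s t g0 (k + 1 : Fin d).val).1.2) 1
      = hx v (walk s t g0 k.val).1.1 (walk s t g0 k.val).1.2 := by
    intro k
    by_cases hE : Even k.val
    · have hE' : ¬ Even (k + 1 : Fin d).val := by
        rw [hparS k]
        exact not_not.2 hE
      rw [if_pos hE, if_neg hE', hsucc, walk_even s t g0 hE, s1]
      rfl
    · have hE' : Even (k + 1 : Fin d).val := (hparS k).2 hE
      rw [if_neg hE, if_pos hE', hsucc, walk_odd s t g0 hE, t1]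
      unfold hx
      exact (Function.update_comm (walk s t g0 k.val).pv.2.2.1 _ _ _).symm
  refine ⟨hdE, ?_, ?_, ?_, ?_⟩
  · intro a c hac
    simp only at hac
    have hz : ∀ k, v (walk s t g0 k).1.1 = 0 := fun k => (walk s t g0 k).2.1
    have hy : ∀ k, v (walk s t g0 k).1.2 = 2 := fun k => (walk s t g0 k).2.2.1
    by_cases ha : Even a.val
    · by_cases hc : Even c.val
      · rw [if_pos ha, if_pos hc] at hac
        rcases t4 (walk s t g0 c.val) (walk s t g0 a.val) hac with e | e
        · exact Fin.ext (hinj a.val c.val a.isLt c.isLt e)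
        · obtain ⟨m, hm, hpar⟩ := hct c.val
          rw [← hm] at e
          have := hparity _ _ e
          rw [hpar] at this
          exact absurd hc (this.1 ha)
      · rw [if_pos ha, if_neg hc] at hac
        have h1 := hz a.val
        rw [hac, hy c.val] at h1
        exact absurd h1 (by decide)
    · by_cases hc : Even c.val
      · rw [if_neg ha, if_pos hc] at hac
        have h1 := hy a.val
        rw [hac, hz c.val] at h1
        exact absurd h1 (by decide)
      · rw [if_neg ha, if_neg hc] at hac
        rcases s4 (walk s t g0 c.val) (walk s t g0 a.val) hac with e | e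
        · exact Fin.ext (hinj a.val c.val a.isLt c.isLt e)
        · obtain ⟨m, hm, hpar⟩ := hcs c.val
          rw [← hm] at e
          have := hparity _ _ e
          rw [hpar] at this
          exact absurd (this.2 hc) ha
  · intro k hk
    rw [if_pos hk]
    exact (walk s t g0 k.val).2.1
  · intro k hk
    rw [if_neg hk]
    exact (walk s t g0 k.val).2.2.1
  · intro h
    constructor
    · rintro ⟨hM, z, y, p⟩
      change Pv h v z y at p
      have q := pv_iff.1 p
      obtain ⟨k, hk⟩ := hrange ⟨(z, y), q.1, q.2.1, by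
        show hx v z y ∈ M
        rw [← q.2.2]
        exact hM⟩
      refine ⟨⟨k % d, Nat.mod_lt _ (by omega)⟩, ?_⟩
      rw [hpair]
      show h = hx v (walk s t g0 (k % d)).1.1 (walk s t g0 (k % d)).1.2
      rw [hmod, hk]
      exact q.2.2
    · rintro ⟨k, rfl⟩
      rw [hpair]
      exact ⟨(walk s t g0 k.val).2.2.2, (walk s t g0 k.val).pv.isVx⟩

end Pool.Agent.H7.RHX
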