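import Pool.Agent.H7.RHX.KA

/-!
# MP_def5ca_co: K4, the check of the connectivity is sound
-/

set_option autoImplicit false

namespace Pool.Agent.H7.RHX

open Pool.Agent.H54.RH Relation

variable {n : ℕ}

theorem sw_sw {g : W n} {k l : Fin n} (hkl : k ≠ l) : sw (sw g k l) l k = g := by
  funext t
  unfold sw
  by_cases h1 : t = l
  · subst h1
    rw [if_pos rfl, if_pos rfl]
  · rw [if_neg h1]
    by_cases h2 : t = k
    · subst h2
      rw [if_pos rfl, if_neg hkl.symm, if_pos rfl]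
    · rw [if_neg h2, if_neg h2, if_neg h1]

theorem nb_back {M : Finset (W n)} {g : W n} (hg : g ∈ M) {k l : Fin n} (hk : g k = 1)
    (hl : g l ≠ 1) : nb M (sw g k l) g := by
  have hkl : k ≠ l := by
    rintro rfl
    exact hl hk
  refine ⟨hg, l, k, ?_, ?_, (sw_sw hkl).symm⟩
  · unfold sw
    rw [if_neg hkl.symm, if_pos rfl]
    exact hk
  · unfold sw
    rw [if_pos rfl]
    exact hl

theorem nb_symm {M : Finset (W n)} {h g : W n} (hh : h ∈ M) (e : nb M h g) : nb M g h := by
  obtain ⟨_, k, l, hk, hl, rfl⟩ := e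
  exact nb_back hh hk hl

theorem mem_of_rtg {M : Finset (W n)} {h g : W n} (hh : h ∈ M) (e : ReflTransGen (nb M) h g) :
    g ∈ M := by
  induction e with
  | refl => exact hh
  | tail _ b _ => exact b.1

theorem rtg_symm {M : Finset (W n)} {h g : W n} (hh : h ∈ M) (e : ReflTransGen (nb M) h g) :
    ReflTransGen (nb M) g h := by
  induction e with
  | refl => exact ReflTransGen.refl
  | tail a b ih => exact ReflTransGen.head (nb_symm (mem_of_rtg hh a) b) ih

theorem bit_one (c d : ℕ) (h : (1 <<< c).testBit d = true) : d = c := by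
  rw [Nat.one_shiftLeft, Nat.testBit_two_pow] at h
  exact (of_decide_eq_true h).symm

theorem okc_reach (h0 : T_K0) (m : ℕ) (hs : W n) : ∀ (r : List ℕ) (s : ℕ),
    (∀ c, s.testBit c = true → ∃ g, g ∈ MS n m ∧ cd g = c ∧ ReflTransGen (nb (MS n m)) hs g) →
    okc n s r = true → (∀ c ∈ r, m.testBit c = true ∧ c < 3 ^ n) →
    ∀ c ∈ r, ∃ g, g ∈ MS n m ∧ cd g = c ∧ ReflTransGen (nb (MS n m)) hs g := by
  intro r
  induction r with
  | nil =>
    intro s _ _ _ c hc
    exact absurd hc (List.not_mem_nil)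
  | cons a r ih =>
    intro s hs1 hok hr
    unfold okc at hok
    rw [Bool.and_eq_true] at hok
    have key : ∃ g, g ∈ MS n m ∧ cd g = a ∧ ReflTransGen (nb (MS n m)) hs g := by
      have h1 := hok.1
      rw [List.any_eq_true] at h1
      obtain ⟨k, hk, h1⟩ := h1
      rw [Bool.and_eq_true, beq_iff_eq, List.any_eq_true] at h1
      obtain ⟨hk1, l, hl, h2⟩ := h1
      rw [Bool.and_eq_true, bne_iff_ne] at h2
      obtain ⟨hl1, hb⟩ := h2
      rw [List.mem_range] at hk hl
      obtain ⟨hab, ha⟩ := hr a (List.mem_cons_self)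
      obtain ⟨g, hg⟩ := (h0 n hs).2.2.1 a ha
      subst hg
      have gk : g ⟨k, hk⟩ = 1 := by
        apply val_eq
        rw [← (h0 n g).2.1 ⟨k, hk⟩]
        exact hk1
      have gl : g ⟨l, hl⟩ ≠ 1 := by
        intro e
        apply hl1
        have := (h0 n g).2.1 ⟨l, hl⟩
        rw [e] at this
        exact this
      have ec : csw (cd g) k l = cd (sw g ⟨k, hk⟩ ⟨l, hl⟩) :=
        ((h0 n g).2.2.2.2 ⟨k, hk⟩ ⟨l, hl⟩).symm
      rw [ec] at hb
      obtain ⟨g', hg', e', ht⟩ := hs1 _ hb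
      have e2 : g' = sw g ⟨k, hk⟩ ⟨l, hl⟩ := (h0 n g).2.2.2.1 e'
      subst e2
      have gm : g ∈ MS n m := mem_MS.2 hab
      exact ⟨g, gm, rfl, ht.tail (nb_back gm gk gl)⟩
    intro c hc
    rcases List.mem_cons.1 hc with rfl | hc
    · exact key
    · refine ih (s ||| (1 <<< a)) ?_ hok.2 (fun d hd => hr d (List.mem_cons_of_mem _ hd)) c hc
      intro d hd
      rw [Nat.testBit_or, Bool.or_eq_true] at hd
      rcases hd with hd | hd
      · exact hs1 d hd
      · rw [bit_one a d hd]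
        exact key

theorem pf_K4 (h0 : T_K0) : T_K4 := by
  intro n m c0 r hck
  unfold ck4 at hck
  simp only [Bool.and_eq_true, Nat.blt_eq] at hck
  obtain ⟨⟨⟨⟨hok, hall⟩, hb0⟩, hlt0⟩, hcod⟩ := hck
  rw [List.all_eq_true] at hall hcod
  obtain ⟨hs, ehs⟩ := (h0 n (fun _ => 0)).2.2.1 c0 hlt0
  subst ehs
  have hsm : hs ∈ MS n m := mem_MS.2 hb0
  have hall' : ∀ c ∈ r, m.testBit c = true ∧ c < 3 ^ n := by
    intro c hc
    have := hall c hc
    rw [Bool.and_eq_true, Nat.blt_eq] at this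
    exact this
  have hreach := okc_reach h0 m hs r (1 <<< cd hs) (by
    intro c hc
    rw [bit_one _ c hc]
    exact ⟨hs, hsm, rfl, ReflTransGen.refl⟩) hok hall'
  have hto : ∀ g ∈ MS n m, ReflTransGen (nb (MS n m)) hs g := by
    intro g hg
    have h1 := hcod (cd g) (mem_codes.2 ⟨(h0 n g).1, mem_MS.1 hg⟩)
    rw [Bool.or_eq_true, beq_iff_eq, List.contains_iff_mem] at h1
    rcases h1 with h1 | h1
    · have : g = hs := (h0 n g).2.2.2.1 h1
      rw [this]
    · obtain ⟨g', hg', e', ht⟩ := hreach _ h1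
      have : g' = g := (h0 n g).2.2.2.1 e'
      rw [← this]
      exact ht
  exact ⟨⟨hs, hsm⟩, fun h hh g hg => (rtg_symm hsm (hto h hh)).trans (hto g hg)⟩

end Pool.Agent.H7.RHX
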