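import Pool.Agent.H54.RH.Targets

/-!
# MP_def5ca_co: codes, common lemmas
-/

set_option autoImplicit false

namespace Pool.Agent.H7.RHX

open Pool.Agent.H54.RH

variable {n : ℕ}

theorem mem_MS {m : ℕ} {h : W n} : h ∈ MS n m ↔ m.testBit (cd h) = true := by
  unfold MS
  rw [Finset.mem_filter]
  exact ⟨fun h => h.2, fun h => ⟨Finset.mem_univ _, h⟩⟩

theorem mem_codes {m c : ℕ} : c ∈ codes n m ↔ c < 3 ^ n ∧ m.testBit c = true := by
  unfold codes
  rw [List.mem_filter, List.mem_range]

theorem cd_upd (h : W n) (t : Fin n) (e : Fin 3) :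
    cd (Function.update h t e) + (h t).val * 3 ^ t.val = cd h + e.val * 3 ^ t.val := by
  unfold cd
  rw [← Finset.add_sum_erase Finset.univ (fun s => (Function.update h t e s).val * 3 ^ s.val)
    (Finset.mem_univ t), ← Finset.add_sum_erase Finset.univ (fun s => (h s).val * 3 ^ s.val)
    (Finset.mem_univ t)]
  rw [Function.update_self]
  have e1 : ∑ s ∈ Finset.univ.erase t, (Function.update h t e s).val * 3 ^ s.val
      = ∑ s ∈ Finset.univ.erase t, (h s).val * 3 ^ s.val := by
    refine Finset.sum_congr rfl fun s hs => ?_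
    rw [Function.update_of_ne (Finset.ne_of_mem_erase hs)]
  rw [e1]
  ring

/-- the code of a vertex -/
theorem cd_vx (h : W n) (z y : Fin n) (hz : h z = 1) (hy : h y = 1) (hn : z ≠ y) :
    cd (Function.update (Function.update h z 0) y 2) + 3 ^ z.val = cd h + 3 ^ y.val := by
  have e1 := cd_upd h z 0
  have e2 := cd_upd (Function.update h z 0) y 2
  rw [Function.update_of_ne hn.symm, hy] at e2
  rw [hz] at e1
  have e3 : ((0 : Fin 3) : Fin 3).val = 0 := rfl
  have e4 : ((1 : Fin 3) : Fin 3).val = 1 := rfl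
  have e5 : ((2 : Fin 3) : Fin 3).val = 2 := rfl
  rw [e3, e4] at e1
  rw [e4, e5] at e2
  omega

theorem val_eq {a : Fin 3} {b : Fin 3} (h : a.val = b.val) : a = b := Fin.ext h

end Pool.Agent.H7.RHX
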